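import Mathlib

open MeasureTheory Filter Topology Set Function

namespace Pool.Agent.H.RWM

variable {X : Type} [MeasurableSpace X] {μ : Measure X} (T : X ≃ᵐ X)

def τ (n : ℤ) : X → X := ⇑(T.toEquiv ^ n)

lemma τ_add (m n : ℤ) (x : X) : τ T (m + n) x = τ T m (τ T n x) := by
  simp [τ, zpow_add]

lemma τ_zero (x : X) : τ T 0 x = x := by simp [τ]

lemma τ_one (x : X) : τ T 1 x = T x := by simp [τ]

lemma τ_neg_one (x : X) : τ T (-1) x = T.symm x := by
  simp only [τ, zpow_neg, zpow_one]; rfl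

lemma τ_nat (n : ℕ) : τ T n = (⇑T)^[n] := by
  simp only [τ, zpow_natCast, Equiv.Perm.coe_pow]; rfl

variable {T}

lemma τ_mp (hT : MeasurePreserving T μ μ) (n : ℤ) : MeasurePreserving (τ T n) μ μ := by
  induction n using Int.induction_on with
  | zero => rw [show τ T 0 = id from funext (τ_zero T)]; exact MeasurePreserving.id μ
  | succ n ih =>
    rw [show τ T (n + 1) = τ T n ∘ T from funext fun x => by rw [τ_add, τ_one]; rfl]
    exact ih.comp hT
  | pred n ih =>
    rw [show τ T (-n - 1) = τ T (-n) ∘ T.symm from funext fun x => by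
      rw [sub_eq_add_neg, τ_add, τ_neg_one]; rfl]
    exact ih.comp (hT.symm T)

def τe (hT : MeasurePreserving T μ μ) (n : ℤ) : X ≃ᵐ X where
  toFun := τ T n
  invFun := τ T (-n)
  left_inv x := by rw [← τ_add]; simp [τ_zero]
  right_inv x := by rw [← τ_add]; simp [τ_zero]
  measurable_toFun := (τ_mp hT n).measurable
  measurable_invFun := (τ_mp hT (-n)).measurable

lemma shift {a : ℕ → ℝ} (ha : Tendsto a atTop atTop) {c : ℤ → ℝ} {M L : ℝ} (hc : ∀ m, |c m| ≤ M)
    (h : Tendsto (fun n : ℕ => 1 / a n * ∑ i ∈ Finset.range n, c i) atTop (𝓝 L)) (s : ℤ) :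
    Tendsto (fun n : ℕ => 1 / a n * ∑ i ∈ Finset.range n, c (i + s)) atTop (𝓝 L) := by
  have h0 : ∀ s : ℤ, Tendsto (fun n : ℕ => 1 / a n * (c (n + s) - c s)) atTop (𝓝 0) := fun s => by
    have h1 : Tendsto (fun n => 1 / a n) atTop (𝓝 0) := by
      simp only [one_div]; exact ha.inv_tendsto_atTop
    refine h1.zero_mul_isBoundedUnder_le (isBoundedUnder_of ⟨M + M, fun n => ?_⟩)
    exact (norm_sub_le _ _).trans (add_le_add (hc _) (hc _))
  have h1 : ∀ (s : ℤ) (n : ℕ), ∑ i ∈ Finset.range n, c (i + (s + 1)) =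
      ∑ i ∈ Finset.range n, c (i + s) + (c (n + s) - c s) := fun s n => by
    induction n with
    | zero => simp
    | succ n ih =>
      rw [Finset.sum_range_succ, Finset.sum_range_succ, ih]
      push_cast; rw [show (n : ℤ) + (s + 1) = n + 1 + s by ring]; ring
  induction s using Int.induction_on with
  | zero => simpa using h
  | succ s ih =>
    have := ih.add (h0 s)
    simpa only [h1, mul_add, add_zero] using this
  | pred s ih =>
    have := ih.sub (h0 (-s - 1))
    have h2 := h1 (-s - 1)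
    simp only [sub_add_cancel] at h2
    simpa only [h2, mul_add, add_sub_cancel_right, sub_zero] using this

variable (μ T) (F : Set X) (a : ℕ → ℝ)

def Gd (A : Set X) : Prop := ∃ j : ℤ, A ⊆ τ T j ⁻¹' F

noncomputable def Δ (i : ℕ) (h : X × X → ℝ) : ℝ := ∫ x, h (x, τ T i x) ∂μ

structure Nice (h : X × X → ℝ) : Prop where
  meas : Measurable h
  int : Integrable h (μ.prod μ)
  int' : ∀ i : ℕ, Integrable (fun x => h (x, τ T i x)) μ
  lim : Tendsto (fun n : ℕ => 1 / a n * ∑ i ∈ Finset.range n, Δ μ T i h) atTop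
    (𝓝 (∫ z, h z ∂(μ.prod μ)))

def Sim (h : X × X → ℝ) : Prop :=
  ∃ (ι : Type) (_ : Fintype ι) (p : X → ι) (H : ι → ι → ℝ), (∀ b, MeasurableSet (p ⁻¹' {b})) ∧
    (∀ b c, H b c ≠ 0 → Gd T F (p ⁻¹' {b}) ∧ Gd T F (p ⁻¹' {c})) ∧ ∀ x y, h (x, y) = H (p x) (p y)

variable {μ T F a}

lemma Gd.mono {A B : Set X} (h : Gd T F B) (hs : A ⊆ B) : Gd T F A :=
  let ⟨j, hj⟩ := h; ⟨j, hs.trans hj⟩

lemma Sim.op {f g : X × X → ℝ} (hf : Sim T F f) (hg : Sim T F g) (o : ℝ → ℝ → ℝ)
    (ho : o 0 0 = 0) : Sim T F (fun z => o (f z) (g z)) := by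
  obtain ⟨ι, _, p, H, h1, h2, h3⟩ := hf
  obtain ⟨ι', _, p', H', h1', h2', h3'⟩ := hg
  refine ⟨ι × ι', inferInstance, fun x => (p x, p' x), fun b c => o (H b.1 c.1) (H' b.2 c.2),
    fun b => ?_, fun b c h => ?_, fun x y => by simp only [h3, h3']⟩
  · convert (h1 b.1).inter (h1' b.2) using 1
    ext x; simp [Prod.ext_iff]
  · by_cases h4 : H b.1 c.1 = 0
    · have h5 : H' b.2 c.2 ≠ 0 := fun h5 => h (by simp only [h4, h5, ho])
      exact ⟨(h2' _ _ h5).1.mono fun x hx => congrArg Prod.snd hx,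
        (h2' _ _ h5).2.mono fun x hx => congrArg Prod.snd hx⟩
    · exact ⟨(h2 _ _ h4).1.mono fun x hx => congrArg Prod.fst hx,
        (h2 _ _ h4).2.mono fun x hx => congrArg Prod.fst hx⟩

lemma Sim.comp (hT : MeasurePreserving T μ μ) {f : X × X → ℝ} (hf : Sim T F f) (m : ℤ) :
    Sim T F (fun z => f (τ T m z.1, τ T m z.2)) := by
  obtain ⟨ι, _, p, H, h1, h2, h3⟩ := hf
  have : ∀ b, Gd T F (p ⁻¹' {b}) → Gd T F ((p ∘ τ T m) ⁻¹' {b}) := fun b ⟨j, hj⟩ =>
    ⟨j + m, fun x hx => by rw [mem_preimage, τ_add]; exact hj hx⟩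
  exact ⟨ι, inferInstance, p ∘ τ T m, H, fun b => (τ_mp hT m).measurable (h1 b),
    fun b c h => ⟨this b (h2 b c h).1, this c (h2 b c h).2⟩, fun x y => h3 _ _⟩

lemma sim_rect {A B : Set X} (hA : MeasurableSet A) (hB : MeasurableSet B) (hAF : A ⊆ F)
    (hBF : B ⊆ F) (c : ℝ) : Sim T F ((A ×ˢ B).indicator fun _ => c) := by
  classical
  have m : ∀ (A : Set X), MeasurableSet A → ∀ b : Prop, MeasurableSet {x | (x ∈ A) = b} := by
    intro A hA b
    by_cases hb : b
    · simpa [hb] using hA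
    · convert hA.compl using 1; ext x; simp [hb]
  refine ⟨Prop × Prop, inferInstance, fun x => (x ∈ A, x ∈ B),
    fun b d => if b.1 ∧ d.2 then c else 0, fun b => ?_, fun b d h => ?_, fun x y => ?_⟩
  · convert (m A hA b.1).inter (m B hB b.2) using 1
    ext x; simp [Prod.ext_iff]
  · have h1 : b.1 ∧ d.2 := by by_contra hh; exact h (if_neg hh)
    refine ⟨⟨0, fun x hx => ?_⟩, ⟨0, fun x hx => ?_⟩⟩
    · rw [mem_preimage, τ_zero]
      exact hAF ((congrArg Prod.fst hx).mpr h1.1)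
    · rw [mem_preimage, τ_zero]
      exact hBF ((congrArg Prod.snd hx).mpr h1.2)
  · simp [indicator]

lemma Nice.zero : Nice μ T a (fun _ => 0) :=
  ⟨measurable_const, integrable_zero _ _ _, fun _ => integrable_zero _ _ _, by simp [Δ]⟩

lemma Nice.add {f g : X × X → ℝ} (hf : Nice μ T a f) (hg : Nice μ T a g) :
    Nice μ T a (f + g) := by
  refine ⟨hf.meas.add hg.meas, hf.int.add hg.int, fun i => (hf.int' i).add (hg.int' i), ?_⟩
  have h1 : ∀ i : ℕ, Δ μ T i (f + g) = Δ μ T i f + Δ μ T i g := fun i =>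
    integral_add (hf.int' i) (hg.int' i)
  simp only [h1, Finset.sum_add_distrib, mul_add, Pi.add_apply, integral_add hf.int hg.int]
  exact hf.lim.add hg.lim

lemma Δ_rect (hT : MeasurePreserving T μ μ) {A B : Set X} (hA : MeasurableSet A)
    (hB : MeasurableSet B) (c : ℝ) (i : ℕ) :
    Δ μ T i ((A ×ˢ B).indicator fun _ => c) = μ.real (A ∩ τ T i ⁻¹' B) * c := by
  have : (fun x => ((A ×ˢ B).indicator fun _ => c) (x, τ T i x)) =
      (A ∩ τ T i ⁻¹' B).indicator fun _ => c := by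
    funext x; rfl
  rw [Δ, this, integral_indicator_const _ (hA.inter ((τ_mp hT i).measurable hB)), smul_eq_mul]

lemma Gd.fin (hT : MeasurePreserving T μ μ) (hF : MeasurableSet F) (hF' : μ F < ⊤) {A : Set X}
    (h : Gd T F A) : μ A < ⊤ := by
  obtain ⟨j, hj⟩ := h
  exact (measure_mono hj).trans_lt (by rwa [(τ_mp hT j).measure_preimage hF.nullMeasurableSet])

variable [SigmaFinite μ]

lemma nice_rect (hT : MeasurePreserving T μ μ) (hF : MeasurableSet F) (hF' : μ F < ⊤)
    (ha : Tendsto a atTop atTop)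
    (hW : ∀ A B, MeasurableSet A → MeasurableSet B → A ⊆ F → B ⊆ F →
      Tendsto (fun n : ℕ => 1 / a n * ∑ i ∈ Finset.range n, μ.real (A ∩ τ T i ⁻¹' B)) atTop
        (𝓝 (μ.real A * μ.real B)))
    {A B : Set X} (hA : MeasurableSet A) (hB : MeasurableSet B) (gA : Gd T F A) (gB : Gd T F B)
    (c : ℝ) : Nice μ T a ((A ×ˢ B).indicator fun _ => c) := by
  have fA := gA.fin hT hF hF'
  have fB := gB.fin hT hF hF'
  refine ⟨measurable_const.indicator (hA.prod hB), ?_, fun i => ?_, ?_⟩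
  · rw [integrable_indicator_iff (hA.prod hB)]
    exact integrableOn_const (by rw [Measure.prod_prod]; exact ENNReal.mul_ne_top fA.ne fB.ne)
  · have : (fun x => ((A ×ˢ B).indicator fun _ => c) (x, τ T i x)) =
        (A ∩ τ T i ⁻¹' B).indicator fun _ => c := by
      funext x; rfl
    rw [this, integrable_indicator_iff (hA.inter ((τ_mp hT i).measurable hB))]
    exact integrableOn_const ((measure_mono inter_subset_left).trans_lt fA).ne
  · simp only [Δ_rect hT hA hB, ← Finset.sum_mul, ← mul_assoc]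
    rw [integral_indicator_const _ (hA.prod hB), smul_eq_mul, measureReal_prod_prod]
    refine Tendsto.mul_const _ ?_
    obtain ⟨j, hj⟩ := gA
    obtain ⟨l, hl⟩ := gB
    have mA := (τ_mp hT (-j)).measurable hA
    have mB := (τ_mp hT (-l)).measurable hB
    have h1 := hW (τ T (-j) ⁻¹' A) (τ T (-l) ⁻¹' B) mA mB
      (fun x hx => by simpa [← τ_add, τ_zero] using hj hx)
      (fun x hx => by simpa [← τ_add, τ_zero] using hl hx)
    have h2 := shift ha (c := fun m => μ.real (τ T (-j) ⁻¹' A ∩ τ T m ⁻¹' (τ T (-l) ⁻¹' B)))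
      (M := μ.real A) (fun m => by
        rw [abs_of_nonneg measureReal_nonneg,
          ← (τ_mp hT (-j)).measureReal_preimage hA.nullMeasurableSet]
        exact measureReal_mono inter_subset_left (by
          rw [(τ_mp hT (-j)).measure_preimage hA.nullMeasurableSet]; exact fA.ne)) h1 (l - j)
    rw [(τ_mp hT (-j)).measureReal_preimage hA.nullMeasurableSet,
      (τ_mp hT (-l)).measureReal_preimage hB.nullMeasurableSet] at h2
    refine h2.congr fun n => ?_
    congr 1
    refine Finset.sum_congr rfl fun i _ => ?_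
    rw [← (τ_mp hT (-j)).measureReal_preimage
      (hA.inter ((τ_mp hT i).measurable hB)).nullMeasurableSet]
    congr 1; ext x
    simp only [mem_inter_iff, mem_preimage, ← τ_add]
    rw [show -l + (i + (l - j)) = i + -j by ring]

lemma Sim.nice (hT : MeasurePreserving T μ μ) (hF : MeasurableSet F) (hF' : μ F < ⊤)
    (ha : Tendsto a atTop atTop)
    (hW : ∀ A B, MeasurableSet A → MeasurableSet B → A ⊆ F → B ⊆ F →
      Tendsto (fun n : ℕ => 1 / a n * ∑ i ∈ Finset.range n, μ.real (A ∩ τ T i ⁻¹' B)) atTop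
        (𝓝 (μ.real A * μ.real B)))
    {h : X × X → ℝ} (hh : Sim T F h) : Nice μ T a h := by
  obtain ⟨ι, _, p, H, h1, h2, h3⟩ := hh
  have : h = ∑ b : ι × ι, ((p ⁻¹' {b.1}) ×ˢ (p ⁻¹' {b.2})).indicator fun _ => H b.1 b.2 := by
    funext ⟨x, y⟩
    rw [Finset.sum_apply, Finset.sum_eq_single (p x, p y)]
    · simp [h3]
    · intro b _ hb
      refine indicator_of_notMem (fun hz => hb ?_) _
      exact (Prod.ext (x := (p x, p y)) hz.1 hz.2).symm
    · simp
  rw [this]
  refine Finset.sum_induction _ (Nice μ T a) (fun _ _ => Nice.add) Nice.zero fun b _ => ?_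
  by_cases hb : H b.1 b.2 = 0
  · rw [hb, indicator_zero]; exact Nice.zero
  · exact nice_rect hT hF hF' ha hW (h1 _) (h1 _) (h2 _ _ hb).1 (h2 _ _ hb).2 _

end Pool.Agent.H.RWM
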