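import Pool.Agent.H.MP_0c3574_an.A

open MeasureTheory Filter Topology Set Function

namespace Pool.Agent.H.RWM

variable {X : Type} [MeasurableSpace X] {μ : Measure X} (T : X ≃ᵐ X)

def U (m : ℤ) (z : X × X) : X × X := (τ T m z.1, τ T m z.2)

lemma U_add (m n : ℤ) (z : X × X) : U T (m + n) z = U T m (U T n z) := by simp [U, τ_add]

lemma U_zero (z : X × X) : U T 0 z = z := by simp [U, τ_zero]

noncomputable def sq (e : ℕ → ℤ) (f g : X × X → ℝ) : ℕ → (X × X → ℝ) × (X × X → ℝ)
  | 0 => (f, g)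
  | k + 1 => (fun z => (sq e f g k).1 z - min ((sq e f g k).1 z) ((sq e f g k).2 (U T (e k) z)),
      fun z => (sq e f g k).2 z - min ((sq e f g k).1 (U T (-e k) z)) ((sq e f g k).2 z))

variable {T} {F : Set X} {a : ℕ → ℝ}

lemma Δ_U (hT : MeasurePreserving T μ μ) (h : X × X → ℝ) (m : ℤ) (i : ℕ) :
    Δ μ T i (fun z => h (U T m z)) = Δ μ T i h := by
  have := MeasurePreserving.integral_comp' (f := τe hT m) (τ_mp hT m) (fun x => h (x, τ T i x))
  rw [Δ, Δ, ← this]
  congr 1; funext x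
  change h (τ T m x, τ T m (τ T i x)) = h (τ T m x, τ T i (τ T m x))
  rw [← τ_add, ← τ_add, add_comm]

variable [SigmaFinite μ]

lemma int_U (hT : MeasurePreserving T μ μ) (h : X × X → ℝ) (m : ℤ) :
    ∫ z, h (U T m z) ∂(μ.prod μ) = ∫ z, h z ∂(μ.prod μ) :=
  MeasurePreserving.integral_comp' (f := (τe hT m).prodCongr (τe hT m))
    ((τ_mp hT m).prod (τ_mp hT m)) h

theorem key (hT : MeasurePreserving T μ μ) (hE : PreErgodic (Prod.map T T) (μ.prod μ))
    (hN : ∀ h, Sim T F h → Nice μ T a h) (ha : ∀ n, 0 ≤ a n) {f g : X × X → ℝ}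
    (hf : Sim T F f) (hg : Sim T F g) (f0 : ∀ z, 0 ≤ f z) (g0 : ∀ z, 0 ≤ g z)
    (hfg : ∫ z, f z ∂(μ.prod μ) = ∫ z, g z ∂(μ.prod μ)) :
    Tendsto (fun n : ℕ => 1 / a n * ∑ i ∈ Finset.range n, |Δ μ T i f - Δ μ T i g|) atTop
      (𝓝 0) := by
  obtain ⟨e, he⟩ := exists_surjective_nat ℤ
  set s := sq T e f g with hs
  have s1 : ∀ k z, (s (k + 1)).1 z = (s k).1 z - min ((s k).1 z) ((s k).2 (U T (e k) z)) :=
    fun _ _ => rfl
  have s2 : ∀ k z, (s (k + 1)).2 z = (s k).2 z - min ((s k).1 (U T (-e k) z)) ((s k).2 z) :=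
    fun _ _ => rfl
  have hS : ∀ k, Sim T F (s k).1 ∧ Sim T F (s k).2 := fun k => by
    induction k with
    | zero => exact ⟨hf, hg⟩
    | succ k ih =>
      exact ⟨ih.1.op (ih.2.comp hT (e k)) (fun x y => x - min x y) (by simp),
        (ih.1.comp hT (-e k)).op ih.2 (fun x y => y - min x y) (by simp)⟩
  have p0 : ∀ k z, 0 ≤ (s k).1 z ∧ 0 ≤ (s k).2 z := fun k z => by
    cases k with
    | zero => exact ⟨f0 z, g0 z⟩
    | succ k => rw [s1, s2]; exact ⟨sub_nonneg.2 (min_le_left _ _), sub_nonneg.2 (min_le_right _ _)⟩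
  have an1 : ∀ z, Antitone fun k => (s k).1 z := fun z => antitone_nat_of_succ_le fun k => by
    rw [s1]; exact sub_le_self _ (le_min (p0 _ _).1 (p0 _ _).2)
  have an2 : ∀ z, Antitone fun k => (s k).2 z := fun z => antitone_nat_of_succ_le fun k => by
    rw [s2]; exact sub_le_self _ (le_min (p0 _ _).1 (p0 _ _).2)
  have m1 : ∀ k, Nice μ T a fun z => min ((s k).1 z) ((s k).2 (U T (e k) z)) := fun k =>
    hN _ ((hS k).1.op ((hS k).2.comp hT (e k)) min (by simp))
  have m2 : ∀ k, Nice μ T a fun z => min ((s k).1 (U T (-e k) z)) ((s k).2 z) := fun k =>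
    hN _ (((hS k).1.comp hT (-e k)).op (hS k).2 min (by simp))
  have m3 : ∀ k, (fun z => min ((s k).1 (U T (-e k) z)) ((s k).2 z)) = fun z =>
      (fun z => min ((s k).1 z) ((s k).2 (U T (e k) z))) (U T (-e k) z) := fun k => by
    funext z; simp only [← U_add, add_neg_cancel, U_zero]
  have i1 : ∀ k (i : ℕ), Δ μ T i (s k).1 - Δ μ T i (s k).2 = Δ μ T i f - Δ μ T i g := by
    intro k i
    induction k with
    | zero => rfl
    | succ k ih =>
      have a1 : Δ μ T i (s (k + 1)).1 = Δ μ T i (s k).1 - Δ μ T i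
          (fun z => min ((s k).1 z) ((s k).2 (U T (e k) z))) :=
        integral_sub ((hN _ (hS k).1).int' i) ((m1 k).int' i)
      have a2 : Δ μ T i (s (k + 1)).2 = Δ μ T i (s k).2 - Δ μ T i
          (fun z => min ((s k).1 (U T (-e k) z)) ((s k).2 z)) :=
        integral_sub ((hN _ (hS k).2).int' i) ((m2 k).int' i)
      rw [a1, a2, m3, Δ_U hT (fun z => min ((s k).1 z) ((s k).2 (U T (e k) z))), ← ih]; ring
  have i2 : ∀ k, ∫ z, (s k).1 z ∂(μ.prod μ) = ∫ z, (s k).2 z ∂(μ.prod μ) := by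
    intro k
    induction k with
    | zero => exact hfg
    | succ k ih =>
      simp only [s1, s2]
      rw [integral_sub (hN _ (hS k).1).int (m1 k).int, integral_sub (hN _ (hS k).2).int (m2 k).int,
        ih, m3, int_U hT (fun z => min ((s k).1 z) ((s k).2 (U T (e k) z)))]
  have z0 : ∀ (c : ℕ → ℝ), Antitone c → (∀ k, 0 ≤ c k) → ∀ k, c k = 0 →
      Tendsto c atTop (𝓝 0) := fun c h1 h2 k h3 =>
    tendsto_const_nhds.congr' (eventually_atTop.2 ⟨k, fun l hl =>
      le_antisymm (h2 l) (h3 ▸ h1 hl)⟩)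
  have dis : ∀ z m, Tendsto (fun k => (s k).1 z) atTop (𝓝 0) ∨
      Tendsto (fun k => (s k).2 (U T m z)) atTop (𝓝 0) := fun z m => by
    obtain ⟨k, rfl⟩ := he m
    rcases le_total ((s k).1 z) ((s k).2 (U T (e k) z)) with h | h
    · exact Or.inl (z0 _ (an1 z) (fun k => (p0 k _).1) (k + 1) (by rw [s1, min_eq_left h, sub_self]))
    · exact Or.inr (z0 _ (an2 _) (fun k => (p0 k _).2) (k + 1) (by
        rw [s2, ← U_add, neg_add_cancel, U_zero, min_eq_right h, sub_self]))
  have lim : Tendsto (fun k => ∫ z, (s k).1 z ∂(μ.prod μ)) atTop (𝓝 0) := by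
    let I : Set (X × X) := ⋂ m : ℤ, U T m ⁻¹' {z | Tendsto (fun k => (s k).2 z) atTop (𝓝 0)}
    have mI : MeasurableSet I := MeasurableSet.iInter fun m =>
      ((τ_mp hT m).prod (τ_mp hT m)).measurable
        (measurableSet_tendsto _ fun k => (hN _ (hS k).2).meas)
    have iI : Prod.map T T ⁻¹' I = I := by
      have u1 : ∀ m z, U T m (Prod.map T T z) = U T (m + 1) z := fun m z => by
        rw [U_add]; simp [U, τ_one, Prod.map]
      ext z
      simp only [I, mem_preimage, mem_iInter, u1]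
      exact ⟨fun h m => by simpa using h (m - 1), fun h m => h _⟩
    rcases eventuallyConst_set.1 (hE.aeconst_set mI iI) with h | h
    · simp only [i2]
      have := tendsto_integral_of_dominated_convergence (μ := μ.prod μ) (F := fun k => (s k).2)
        (f := fun _ => 0) g (fun k => (hN _ (hS k).2).int.1) (hN _ hg).int
        (fun k => Eventually.of_forall fun z => by
          rw [Real.norm_of_nonneg (p0 k z).2]; exact an2 z (Nat.zero_le k))
        (h.mono fun z hz => by simpa [U_zero] using mem_iInter.1 hz 0)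
      simpa using this
    · have := tendsto_integral_of_dominated_convergence (μ := μ.prod μ) (F := fun k => (s k).1)
        (f := fun _ => 0) f (fun k => (hN _ (hS k).1).int.1) (hN _ hf).int
        (fun k => Eventually.of_forall fun z => by
          rw [Real.norm_of_nonneg (p0 k z).1]; exact an1 z (Nat.zero_le k))
        (h.mono fun z hz => by
          by_contra hh
          exact hz (mem_iInter.2 fun m => (dis z m).resolve_left hh))
      simpa using this
  rw [Metric.tendsto_atTop]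
  intro ε hε
  obtain ⟨k, hk⟩ := (lim.eventually (gt_mem_nhds (half_pos hε))).exists
  have h1 := ((hN _ (hS k).1).lim.add (hN _ (hS k).2).lim).eventually
    (gt_mem_nhds (show _ < ε by rw [← i2]; linarith))
  obtain ⟨N, hN'⟩ := eventually_atTop.1 h1
  refine ⟨N, fun n hn => ?_⟩
  have h2 : 0 ≤ 1 / a n := div_nonneg zero_le_one (ha n)
  rw [Real.dist_eq, sub_zero, abs_of_nonneg (mul_nonneg h2
    (Finset.sum_nonneg fun _ _ => abs_nonneg _))]
  refine lt_of_le_of_lt ?_ (hN' n hn)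
  rw [← mul_add, ← Finset.sum_add_distrib]
  refine mul_le_mul_of_nonneg_left (Finset.sum_le_sum fun i _ => ?_) h2
  have b1 : 0 ≤ Δ μ T i (s k).1 := integral_nonneg fun x => (p0 k _).1
  have b2 : 0 ≤ Δ μ T i (s k).2 := integral_nonneg fun x => (p0 k _).2
  rw [← i1 k, abs_le]; constructor <;> linarith

omit [SigmaFinite μ] in
lemma img (hT : MeasurePreserving T μ μ) {A B : Set X} (hA : MeasurableSet A)
    (hB : MeasurableSet B) (i : ℕ) :
    μ.real ((⇑T)^[i] '' A ∩ B) = μ.real (A ∩ τ T i ⁻¹' B) := by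
  have h1 : (⇑T)^[i] '' A = τe hT i '' A := by rw [← τ_nat]; rfl
  rw [← (τ_mp hT i).measureReal_preimage (s := (⇑T)^[i] '' A ∩ B)
    (by rw [h1]; exact (((τe hT i).measurableSet_image.2 hA).inter hB).nullMeasurableSet),
    preimage_inter, h1]
  congr 2
  exact (τe hT i).injective.preimage_image A

omit [SigmaFinite μ] in
lemma a_top (hC : Conservative T μ) {F : Set X} (hF : MeasurableSet F) (h0 : 0 < μ F)
    (h1 : μ F < ⊤) :
    Tendsto (fun n => ∑ i ∈ Finset.range n, μ.real (F ∩ τ T i ⁻¹' F)) atTop atTop := by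
  rw [← not_summable_iff_tendsto_nat_atTop_of_nonneg fun _ => measureReal_nonneg]
  intro hs
  have h2 : ∑' i : ℕ, μ (F ∩ τ T i ⁻¹' F) ≠ ⊤ := by
    have : ∀ i : ℕ, μ (F ∩ τ T i ⁻¹' F) = ENNReal.ofReal (μ.real (F ∩ τ T i ⁻¹' F)) := fun i =>
      (ofReal_measureReal ((measure_mono inter_subset_left).trans_lt h1).ne).symm
    simp only [this]
    exact hs.tsum_ofReal_ne_top
  refine h0.ne' (measure_eq_zero_iff_ae_notMem.2 ?_)
  filter_upwards [ae_eventually_notMem h2,
    hC.ae_mem_imp_frequently_image_mem hF.nullMeasurableSet] with x h3 h4 hx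
  obtain ⟨n, h5, h6⟩ := ((h4 hx).and_eventually h3).exists
  exact h6 ⟨hx, by rwa [mem_preimage, τ_nat]⟩

end Pool.Agent.H.RWM
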